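import Pool.Agent.Helper1.RK.StA

/-!
# Project RK (MP_de00bc_nt): module LD, the local lemma
-/

set_option autoImplicit false

namespace Pool.Agent.Helper80.RK

open Pool.Agent.Helper1.RK Polynomial

section derivation

variable {L : Type} [Field L]

private noncomputable def dfun (f : RatFunc L) : RatFunc L :=
  algebraMap L[X] (RatFunc L) (derivative f.num * f.denom - f.num * derivative f.denom) /
    algebraMap L[X] (RatFunc L) f.denom ^ 2

private theorem am_ne {b : L[X]} (hb : b ≠ 0) : algebraMap L[X] (RatFunc L) b ≠ 0 :=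
  (map_ne_zero_iff _ (RatFunc.algebraMap_injective L)).2 hb

private theorem dfun_eq {f : RatFunc L} {a b : L[X]} (hb : b ≠ 0)
    (hf : f = algebraMap L[X] (RatFunc L) a / algebraMap L[X] (RatFunc L) b) :
    dfun f = algebraMap L[X] (RatFunc L) (derivative a * b - a * derivative b) /
      algebraMap L[X] (RatFunc L) b ^ 2 := by
  have h1 : f.num * b = a * f.denom := (RatFunc.num_mul_eq_mul_denom_iff hb).2 hf
  have h2 : derivative f.num * b + f.num * derivative b =
      derivative a * f.denom + a * derivative f.denom := by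
    have h := congrArg derivative h1
    simpa only [derivative_mul] using h
  unfold dfun
  rw [div_eq_div_iff (pow_ne_zero 2 (am_ne f.denom_ne_zero)) (pow_ne_zero 2 (am_ne hb)), ← map_pow, ← map_pow,
    ← map_mul, ← map_mul]
  congr 1
  linear_combination (f.denom * b) * h2 - (derivative f.denom * b + derivative b * f.denom) * h1

private theorem exists_rep (f : RatFunc L) : ∃ a b : L[X], b ≠ 0 ∧
    f = algebraMap L[X] (RatFunc L) a / algebraMap L[X] (RatFunc L) b :=
  ⟨f.num, f.denom, f.denom_ne_zero, (RatFunc.num_div_denom f).symm⟩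

private theorem dfun_add (f g : RatFunc L) : dfun (f + g) = dfun f + dfun g := by
  obtain ⟨a, b, hb, hf⟩ := exists_rep f
  obtain ⟨c, e, he, hg⟩ := exists_rep g
  have hb' := am_ne hb
  have he' := am_ne he
  have h : f + g = algebraMap L[X] (RatFunc L) (a * e + c * b) / algebraMap L[X] (RatFunc L) (b * e) := by
    rw [hf, hg, map_add, map_mul, map_mul, map_mul]
    field_simp
  rw [dfun_eq (mul_ne_zero hb he) h, dfun_eq hb hf, dfun_eq he hg]
  simp only [map_sub, map_mul, map_add, derivative_mul]
  field_simp
  ring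

private theorem dfun_mul (f g : RatFunc L) : dfun (f * g) = f * dfun g + g * dfun f := by
  obtain ⟨a, b, hb, hf⟩ := exists_rep f
  obtain ⟨c, e, he, hg⟩ := exists_rep g
  have hb' := am_ne hb
  have he' := am_ne he
  have h : f * g = algebraMap L[X] (RatFunc L) (a * c) / algebraMap L[X] (RatFunc L) (b * e) := by
    rw [hf, hg, map_mul, map_mul]
    field_simp
  rw [dfun_eq (mul_ne_zero hb he) h, dfun_eq hb hf, dfun_eq he hg, hf, hg]
  simp only [map_sub, map_mul, map_add, derivative_mul]
  field_simp
  ring

private theorem exists_Dt : ∃ Dt : Derivation ℤ (RatFunc L) (RatFunc L), Over 0 1 Dt := by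
  let A : RatFunc L →+ RatFunc L := AddMonoidHom.mk' dfun dfun_add
  have h1 : dfun (1 : RatFunc L) = 0 := by
    have h := dfun_mul (1 : RatFunc L) 1
    simpa using h
  let Dt : Derivation ℤ (RatFunc L) (RatFunc L) :=
    { toFun := dfun
      map_add' := dfun_add
      map_smul' := by
        intro n f
        have h := map_intCast_smul A ℤ ℤ n f
        simp only [Int.cast_id, zsmul_eq_mul] at h
        rw [Algebra.smul_def, eq_intCast, RingHom.id_apply, zsmul_eq_mul]
        exact h
      map_one_eq_zero' := h1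
      leibniz' := fun f g => dfun_mul f g }
  refine ⟨Dt, ?_, ?_⟩
  · intro a
    change dfun (RatFunc.C a) = RatFunc.C ((0 : Derivation ℤ L L) a)
    have h : (RatFunc.C a : RatFunc L) =
        algebraMap L[X] (RatFunc L) (C a) / algebraMap L[X] (RatFunc L) 1 := by
      rw [map_one, div_one, RatFunc.algebraMap_C]
    rw [dfun_eq one_ne_zero h]
    simp
  · change dfun (RatFunc.X : RatFunc L) = 1
    have h : (RatFunc.X : RatFunc L) =
        algebraMap L[X] (RatFunc L) X / algebraMap L[X] (RatFunc L) 1 := by
      rw [map_one, div_one, RatFunc.algebraMap_X]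
    rw [dfun_eq one_ne_zero h]
    simp

end derivation

/-- module LD -/
theorem pLD (h1 : StORD) (h2 : StREG) (h3 : StLCD) : StLD := by
  intro L _ _ p l d V D u hl0 hl1 hdl hD hV hu
  obtain ⟨Dt, hDt⟩ := exists_Dt (L := L)
  obtain ⟨-, o2, -, -, -, -, o7, o8, -, -⟩ := h1 L p
  obtain ⟨-, r2, r3, r4, r5, -, r7, -, -⟩ := h2 L p
  obtain ⟨f1, f2, f3⟩ := (h3 L p Dt hDt).1 d V D hD hV
  have e0 : u = u - RatFunc.C 0 := by rw [map_zero, sub_zero]
  have e1 : u - 1 = u - RatFunc.C 1 := by rw [map_one]
  have hleg : leg l u = (u - RatFunc.C 0) * (u - RatFunc.C 1) * (u - RatFunc.C l) := by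
    unfold leg
    rw [← e0, ← e1]
  rw [hleg] at hu ⊢
  have n0 : u - RatFunc.C 0 ≠ 0 := left_ne_zero_of_mul (left_ne_zero_of_mul hu)
  have n1 : u - RatFunc.C 1 ≠ 0 := right_ne_zero_of_mul (left_ne_zero_of_mul hu)
  have nl : u - RatFunc.C l ≠ 0 := right_ne_zero_of_mul hu
  have hm : ord p ((u - RatFunc.C 0) * (u - RatFunc.C 1) * (u - RatFunc.C l)) =
      ord p (u - RatFunc.C 0) + ord p (u - RatFunc.C 1) + ord p (u - RatFunc.C l) := by
    rw [o2 _ _ (mul_ne_zero n0 n1) nl, o2 _ _ n0 n1]
  rw [hm]
  have hDu : ∀ c : L, d c = 0 → D (u - RatFunc.C c) = D u := by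
    intro c hc
    rw [map_sub, hD.1, hc, map_zero, sub_zero]
  have hd0 : d 0 = 0 := map_zero d
  have hd1 : d 1 = 0 := d.map_one_eq_zero
  by_cases hreg : Reg p u
  · -- regular case
    have key : ∀ c : L, u - RatFunc.C c ≠ 0 → (ev p u = c → 1 ≤ ord p (u - RatFunc.C c)) ∧
        (ev p u ≠ c → ord p (u - RatFunc.C c) = 0) := by
      intro c hc
      obtain ⟨-, -, -, -, hr, he⟩ := r7 u (RatFunc.C c) hreg (r5 c).1
      rw [(r5 c).2] at he
      refine ⟨fun h => ?_, fun h => ?_⟩
      · have h4 := (r4 _ hr).1 (by rw [he, h, sub_self])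
        exact h4.resolve_left hc
      · have h4 : ¬ (u - RatFunc.C c = 0 ∨ 1 ≤ ord p (u - RatFunc.C c)) := by
          intro h5
          have h6 := (r4 _ hr).2 h5
          rw [he, sub_eq_zero] at h6
          exact h h6
        have h5 := ((r2 _).1 hr).resolve_left hc
        have h6 : ¬ 1 ≤ ord p (u - RatFunc.C c) := fun h7 => h4 (Or.inr h7)
        omega
    have k0 := key 0 n0
    have k1 := key 1 n1
    have kl := key l nl
    have main : ∀ c : L, d c = 0 → u - RatFunc.C c ≠ 0 →
        (D u = 0 ∨ ord p (u - RatFunc.C c) - 1 ≤ ord p (D u)) ∧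
        (ev p V = d p → D u = 0 ∨ ord p (u - RatFunc.C c) ≤ ord p (D u)) := by
      intro c hc hn
      rw [← hDu c hc]
      by_cases hz : D (u - RatFunc.C c) = 0
      · exact ⟨Or.inl hz, fun _ => Or.inl hz⟩
      · exact ⟨Or.inr (f2 _ hn hz), fun hv => Or.inr (f3 hv _ hn hz)⟩
    by_cases c0 : ev p u = 0
    · have a0 := k0.1 c0
      have a1 := k1.2 (by rw [c0]; exact zero_ne_one)
      have al := kl.2 (by rw [c0]; exact hl0.symm)
      obtain ⟨m1, m2⟩ := main 0 hd0 n0
      refine ⟨?_, ?_, fun _ => Or.inr ⟨hreg, Or.inl c0⟩⟩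
      · rcases m1 with h | h
        · exact Or.inl h
        · right; omega
      · intro hv _
        rcases m2 hv with h | h
        · exact Or.inl h
        · right; omega
    · by_cases c1 : ev p u = 1
      · have a0 := k0.2 c0
        have a1 := k1.1 c1
        have al := kl.2 (by rw [c1]; exact hl1.symm)
        obtain ⟨m1, m2⟩ := main 1 hd1 n1
        refine ⟨?_, ?_, fun _ => Or.inr ⟨hreg, Or.inr (Or.inl c1)⟩⟩
        · rcases m1 with h | h
          · exact Or.inl h
          · right; omega
        · intro hv _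
          rcases m2 hv with h | h
          · exact Or.inl h
          · right; omega
      · by_cases cl : ev p u = l
        · have a0 := k0.2 c0
          have a1 := k1.2 c1
          have al := kl.1 cl
          obtain ⟨m1, m2⟩ := main l hdl nl
          refine ⟨?_, ?_, fun _ => Or.inr ⟨hreg, Or.inr (Or.inr cl)⟩⟩
          · rcases m1 with h | h
            · exact Or.inl h
            · right; omega
          · intro hv _
            rcases m2 hv with h | h
            · exact Or.inl h
            · right; omega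
        · have a0 := k0.2 c0
          have a1 := k1.2 c1
          have al := kl.2 cl
          rw [a0, a1, al]
          have hodd : ¬ Odd ((0 : ℤ) + 0 + 0) := by decide
          refine ⟨?_, fun _ h => absurd h hodd, fun h => absurd h hodd⟩
          rcases (r2 _).1 (f1 u hreg).1 with h | h
          · exact Or.inl h
          · right; omega
  · -- pole
    obtain ⟨hu0, hneg⟩ := (r3 u).1 hreg
    have key : ∀ c : L, ord p (u - RatFunc.C c) = ord p u := by
      intro c
      by_cases hc : c = 0
      · rw [hc, map_zero, sub_zero]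
      · have hc' : (RatFunc.C (-c) : RatFunc L) ≠ 0 :=
          (map_ne_zero (RatFunc.C : L →+* RatFunc L)).2 (neg_ne_zero.2 hc)
        have h := (o7 u (RatFunc.C (-c)) hu0 hc' (by rw [o8]; exact hneg)).2
        rwa [map_neg, ← sub_eq_add_neg] at h
    rw [key 0, key 1, key l]
    refine ⟨?_, ?_, fun _ => Or.inl hreg⟩
    · by_cases hz : D u = 0
      · exact Or.inl hz
      · right
        have h := f2 u hu0 hz
        omega
    · intro hv _
      by_cases hz : D u = 0
      · exact Or.inl hz
      · right
        have h := f3 hv u hu0 hz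
        omega

end Pool.Agent.Helper80.RK
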