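import Pool.Agent.Helper1.RK.StD

/-!
# Project RK (MP_de00bc_nt): module PDR, derivations on a field of rational functions
-/

set_option autoImplicit false

namespace Pool.Agent.Helper80.RK

open Pool.Agent.Helper1.RK

section ext

variable {R : Type} [CommRing R] [IsDomain R]

private theorem frac_rep (z : FractionRing R) : ∃ a b : R, b ≠ 0 ∧
    z = algebraMap R (FractionRing R) a / algebraMap R (FractionRing R) b := by
  obtain ⟨a, b, hb, h⟩ := IsFractionRing.div_surjective (A := R) z
  exact ⟨a, b, nonZeroDivisors.ne_zero hb, h.symm⟩

private theorem phi_ne {b : R} (hb : b ≠ 0) : algebraMap R (FractionRing R) b ≠ 0 :=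
  (map_ne_zero_iff _ (IsFractionRing.injective R (FractionRing R))).2 hb

private theorem ext_fun (D : R → R) (hadd : ∀ a b, D (a + b) = D a + D b)
    (hmul : ∀ a b, D (a * b) = a * D b + b * D a) :
    ∃ δ : FractionRing R → FractionRing R, (∀ x y, δ (x + y) = δ x + δ y) ∧
      (∀ x y, δ (x * y) = x * δ y + y * δ x) ∧
      ∀ r, δ (algebraMap R (FractionRing R) r) = algebraMap R (FractionRing R) (D r) := by
  choose a b hb hz using frac_rep (R := R)
  let δ : FractionRing R → FractionRing R := fun z =>
    algebraMap R (FractionRing R) (D (a z) * b z - a z * D (b z)) / algebraMap R (FractionRing R) (b z) ^ 2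
  have key : ∀ (z : FractionRing R) (c e : R), e ≠ 0 →
      z = algebraMap R (FractionRing R) c / algebraMap R (FractionRing R) e →
      δ z = algebraMap R (FractionRing R) (D c * e - c * D e) / algebraMap R (FractionRing R) e ^ 2 := by
    intro z c e he hze
    have h0 : algebraMap R (FractionRing R) (a z) / algebraMap R (FractionRing R) (b z) =
        algebraMap R (FractionRing R) c / algebraMap R (FractionRing R) e := (hz z).symm.trans hze
    rw [div_eq_div_iff (phi_ne (hb z)) (phi_ne he), ← map_mul, ← map_mul] at h0
    have h1 : a z * e = c * b z := IsFractionRing.injective R (FractionRing R) h0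
    have h2 : a z * D e + e * D (a z) = c * D (b z) + b z * D c := by
      have h := congrArg D h1
      rwa [hmul, hmul] at h
    change algebraMap R (FractionRing R) (D (a z) * b z - a z * D (b z)) /
      algebraMap R (FractionRing R) (b z) ^ 2 = _
    rw [div_eq_div_iff (pow_ne_zero 2 (phi_ne (hb z))) (pow_ne_zero 2 (phi_ne he)), ← map_pow, ← map_pow,
      ← map_mul, ← map_mul]
    congr 1
    linear_combination (e * b z) * h2 - (D (b z) * e + D e * b z) * h1
  refine ⟨δ, ?_, ?_, ?_⟩
  · intro x y
    have hbx := phi_ne (hb x)
    have hby := phi_ne (hb y)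
    have h : x + y = algebraMap R (FractionRing R) (a x * b y + a y * b x) /
        algebraMap R (FractionRing R) (b x * b y) := by
      conv_lhs => rw [hz x, hz y]
      rw [map_add, map_mul, map_mul, map_mul]
      field_simp
    rw [key _ _ _ (mul_ne_zero (hb x) (hb y)) h]
    change _ = algebraMap R (FractionRing R) (D (a x) * b x - a x * D (b x)) /
      algebraMap R (FractionRing R) (b x) ^ 2 +
      algebraMap R (FractionRing R) (D (a y) * b y - a y * D (b y)) /
      algebraMap R (FractionRing R) (b y) ^ 2
    simp only [hadd, hmul, map_sub, map_mul, map_add]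
    field_simp
    ring
  · intro x y
    have hbx := phi_ne (hb x)
    have hby := phi_ne (hb y)
    have h : x * y = algebraMap R (FractionRing R) (a x * a y) /
        algebraMap R (FractionRing R) (b x * b y) := by
      conv_lhs => rw [hz x, hz y]
      rw [map_mul, map_mul]
      field_simp
    rw [key _ _ _ (mul_ne_zero (hb x) (hb y)) h]
    have e1 : x * δ y + y * δ x = algebraMap R (FractionRing R) (a x) / algebraMap R (FractionRing R) (b x) *
        (algebraMap R (FractionRing R) (D (a y) * b y - a y * D (b y)) /
          algebraMap R (FractionRing R) (b y) ^ 2) +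
        algebraMap R (FractionRing R) (a y) / algebraMap R (FractionRing R) (b y) *
        (algebraMap R (FractionRing R) (D (a x) * b x - a x * D (b x)) /
          algebraMap R (FractionRing R) (b x) ^ 2) := by
      rw [← hz x, ← hz y]
    rw [e1]
    simp only [hmul, map_sub, map_mul, map_add]
    field_simp
    ring
  · intro r
    have h : algebraMap R (FractionRing R) r =
        algebraMap R (FractionRing R) r / algebraMap R (FractionRing R) 1 := by
      rw [map_one, div_one]
    have h1 : D 1 = 0 := by
      have h2 := hmul 1 1
      simpa using h2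
    rw [key _ _ _ one_ne_zero h, h1, map_one]
    simp

end ext

private theorem exists_der {F : Type} [Field F] {I : Type} (D : MvPolynomial I F → MvPolynomial I F)
    (hadd : ∀ a b, D (a + b) = D a + D b) (hmul : ∀ a b, D (a * b) = a * D b + b * D a) :
    ∃ D' : Derivation ℤ (FractionRing (MvPolynomial I F)) (FractionRing (MvPolynomial I F)),
      ∀ r, D' (algebraMap (MvPolynomial I F) _ r) = algebraMap (MvPolynomial I F) _ (D r) := by
  obtain ⟨δ, h1, h2, h3⟩ := ext_fun D hadd hmul
  let A : FractionRing (MvPolynomial I F) →+ FractionRing (MvPolynomial I F) := AddMonoidHom.mk' δ h1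
  have h0 : δ 1 = 0 := by
    have h := h2 1 1
    simpa using h
  refine ⟨{ toFun := δ
            map_add' := h1
            map_smul' := ?_
            map_one_eq_zero' := h0
            leibniz' := fun f g => h2 f g }, h3⟩
  intro n f
  have h := map_intCast_smul A ℤ ℤ n f
  simp only [Int.cast_id, zsmul_eq_mul] at h
  rw [Algebra.smul_def, eq_intCast, RingHom.id_apply, zsmul_eq_mul]
  exact h

private theorem der_ext {R : Type} [CommRing R] [IsDomain R] (δ : FractionRing R → FractionRing R)
    (hmul : ∀ x y, δ (x * y) = x * δ y + y * δ x)
    (h0 : ∀ r, δ (algebraMap R (FractionRing R) r) = 0) (z : FractionRing R) : δ z = 0 := by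
  obtain ⟨a, b, hb, hz⟩ := frac_rep z
  have h1 : z * algebraMap R (FractionRing R) b = algebraMap R (FractionRing R) a := by
    rw [hz, div_mul_cancel₀ _ (phi_ne hb)]
  have h2 := hmul z (algebraMap R (FractionRing R) b)
  rw [h1, h0, h0, mul_zero, zero_add] at h2
  exact (mul_eq_zero.1 h2.symm).resolve_left (phi_ne hb)

private theorem pd_comm {F : Type} [Field F] {I : Type} (i j : I) (r : MvPolynomial I F) :
    MvPolynomial.pderiv i (MvPolynomial.pderiv j r) = MvPolynomial.pderiv j (MvPolynomial.pderiv i r) := by
  classical
  have h : ⁅(MvPolynomial.pderiv i : Derivation F (MvPolynomial I F) (MvPolynomial I F)),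
      (MvPolynomial.pderiv j : Derivation F (MvPolynomial I F) (MvPolynomial I F))⁆ = 0 := by
    apply MvPolynomial.derivation_ext
    intro k
    rw [Derivation.commutator_apply, MvPolynomial.pderiv_X, MvPolynomial.pderiv_X]
    simp only [Pi.single_apply]
    split_ifs <;> simp
  have h1 := congrArg (fun D : Derivation F (MvPolynomial I F) (MvPolynomial I F) => D r) h
  simp only [Derivation.commutator_apply] at h1
  exact sub_eq_zero.1 h1

/-- module PDR -/
theorem pPDR : StPDR := by
  intro F _ _ I
  choose d hd using fun i : I => exists_der (F := F) (I := I) (fun p => MvPolynomial.pderiv i p)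
    (fun a b => map_add _ a b) (fun a b => by
      have h := (MvPolynomial.pderiv i : Derivation F (MvPolynomial I F) (MvPolynomial I F)).leibniz a b
      simpa only [smul_eq_mul] using h)
  refine ⟨d, ?_, ?_, ?_, ?_⟩
  · intro i j x
    have h := der_ext (R := MvPolynomial I F) (fun y => d i (d j y) - d j (d i y)) (fun x y => by
      simp only [Derivation.leibniz, map_add, smul_eq_mul]
      ring) (fun r => by
      simp only [hd]
      rw [sub_eq_zero]
      congr 1
      exact pd_comm i j r) x
    exact sub_eq_zero.1 h
  · intro i
    rw [hd, MvPolynomial.pderiv_X_self, map_one]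
  · intro i j hij
    rw [hd, MvPolynomial.pderiv_X_of_ne hij.symm, map_zero]
  · intro i c
    rw [hd, MvPolynomial.pderiv_C, map_zero]

end Pool.Agent.Helper80.RK
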