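import Pool.Agent.Helper1.RK.StE

/-!
# Project RK (MP_de00bc_nt): module TOP, degree and leading coefficient of rational functions
-/

set_option autoImplicit false

namespace Pool.Agent.Helper80.RK

open Pool.Agent.Helper1.RK Polynomial

section TOP

variable {L : Type} [Field L]

private noncomputable def cd (d : Derivation ℤ L L) (P : L[X]) : L[X] :=
  P.sum fun n a => monomial n (d a)

private theorem cd_coeff (d : Derivation ℤ L L) (P : L[X]) (i : ℕ) :
    (cd d P).coeff i = d (P.coeff i) := by
  unfold cd
  rw [Polynomial.sum_def, Polynomial.finsetSum_coeff]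
  simp only [Polynomial.coeff_monomial]
  rw [Finset.sum_ite_eq' P.support i (fun n => d (P.coeff n))]
  split_ifs with h
  · rfl
  · rw [Polynomial.notMem_support_iff.1 h, map_zero]

private theorem cd_natDegree (d : Derivation ℤ L L) (P : L[X]) :
    (cd d P).natDegree ≤ P.natDegree := by
  rw [Polynomial.natDegree_le_iff_coeff_eq_zero]
  intro N hN
  rw [cd_coeff, Polynomial.coeff_eq_zero_of_natDegree_lt hN, map_zero]

private theorem cd_add (d : Derivation ℤ L L) (P Q : L[X]) : cd d (P + Q) = cd d P + cd d Q := by
  ext i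
  rw [Polynomial.coeff_add, cd_coeff, cd_coeff, cd_coeff, Polynomial.coeff_add, map_add]

private theorem cd_monomial (d : Derivation ℤ L L) (n : ℕ) (a : L) :
    cd d (monomial n a) = monomial n (d a) := by
  ext i
  rw [cd_coeff, Polynomial.coeff_monomial, Polynomial.coeff_monomial]
  split_ifs with h
  · rfl
  · exact map_zero _

private theorem Dpow (D : Derivation ℤ (RatFunc L) (RatFunc L)) (n : ℕ) :
    D (RatFunc.X ^ n) = (n : RatFunc L) * RatFunc.X ^ (n - 1) * D RatFunc.X := by
  rw [Derivation.leibniz_pow]
  simp only [smul_eq_mul, nsmul_eq_mul]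
  ring

private theorem am_mono (n : ℕ) (a : L) :
    algebraMap L[X] (RatFunc L) (monomial n a) = RatFunc.C a * RatFunc.X ^ n := by
  rw [← Polynomial.C_mul_X_pow_eq_monomial, map_mul, map_pow, RatFunc.algebraMap_C, RatFunc.algebraMap_X]

private theorem Dc_poly {d : Derivation ℤ L L} {Dc : Derivation ℤ (RatFunc L) (RatFunc L)}
    (h : Over d 0 Dc) (P : L[X]) :
    Dc (algebraMap L[X] (RatFunc L) P) = algebraMap L[X] (RatFunc L) (cd d P) := by
  induction P using Polynomial.induction_on' with
  | add p q hp hq => rw [map_add, map_add, hp, hq, cd_add, map_add]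
  | monomial n a =>
    rw [cd_monomial, am_mono, am_mono, Derivation.leibniz, Dpow, h.1, h.2]
    simp only [smul_eq_mul]
    ring

private theorem Dt_poly {Dt : Derivation ℤ (RatFunc L) (RatFunc L)}
    (h : Over 0 1 Dt) (P : L[X]) :
    Dt (algebraMap L[X] (RatFunc L) P) = algebraMap L[X] (RatFunc L) (derivative P) := by
  induction P using Polynomial.induction_on' with
  | add p q hp hq => rw [map_add, map_add, hp, hq, derivative_add, map_add]
  | monomial n a =>
    rw [Polynomial.derivative_monomial, am_mono, am_mono, Derivation.leibniz, Dpow, h.1, h.2]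
    simp only [smul_eq_mul, map_mul, map_natCast, Derivation.coe_zero, Pi.zero_apply, map_zero]
    ring

private theorem D_quot (D : Derivation ℤ (RatFunc L) (RatFunc L)) {g P Q : RatFunc L} (hQ : Q ≠ 0)
    (hg : g = P / Q) : D g * Q ^ 2 = D P * Q - P * D Q := by
  have h1 : g * Q = P := by rw [hg, div_mul_cancel₀ _ hQ]
  have h2 := congrArg D h1
  rw [Derivation.leibniz] at h2
  simp only [smul_eq_mul] at h2
  linear_combination Q * h2 - D Q * h1

private theorem am_inj {p q : L[X]} (h : algebraMap L[X] (RatFunc L) p = algebraMap L[X] (RatFunc L) q) :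
    p = q := RatFunc.algebraMap_injective L h

private theorem den_ne (g : RatFunc L) : algebraMap L[X] (RatFunc L) g.denom ≠ 0 := by
  rw [Ne, map_eq_zero_iff _ (RatFunc.algebraMap_injective L)]
  exact RatFunc.denom_ne_zero g

private theorem X_der_coeff (P : L[X]) (n : ℕ) : (X * derivative P).coeff n = n * P.coeff n := by
  cases n with
  | zero => simp
  | succ n =>
    rw [Polynomial.coeff_X_mul, Polynomial.coeff_derivative]
    push_cast
    ring

private theorem X_der_natDegree (P : L[X]) : (X * derivative P).natDegree ≤ P.natDegree := by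
  rw [Polynomial.natDegree_le_iff_coeff_eq_zero]
  intro N hN
  rw [X_der_coeff, Polynomial.coeff_eq_zero_of_natDegree_lt hN, mul_zero]

private theorem top_coeff {p s p' s' : L[X]} {a b : ℕ} (hp : p.natDegree ≤ a) (hs : s.natDegree ≤ b)
    (hp' : p'.natDegree ≤ a) (hs' : s'.natDegree ≤ b) :
    (p * s - p' * s').natDegree ≤ a + b ∧
    (p * s - p' * s').coeff (a + b) = p.coeff a * s.coeff b - p'.coeff a * s'.coeff b := by
  refine ⟨?_, ?_⟩
  · refine (Polynomial.natDegree_sub_le _ _).trans (max_le ?_ ?_)
    · exact (Polynomial.natDegree_mul_le).trans (add_le_add hp hs)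
    · exact (Polynomial.natDegree_mul_le).trans (add_le_add hp' hs')
  · rw [Polynomial.coeff_sub, Polynomial.coeff_mul_add_eq_of_natDegree_le hp hs,
      Polynomial.coeff_mul_add_eq_of_natDegree_le hp' hs']

theorem pTOP : StTOP := by
  intro L _ _
  refine ⟨?_, ?_, ?_, ?_, ?_⟩
  · intro g h hg hh
    refine ⟨RatFunc.intDegree_mul hg hh, ?_⟩
    have h1 := congrArg Polynomial.leadingCoeff (RatFunc.num_denom_mul g h)
    rw [Polynomial.leadingCoeff_mul, Polynomial.leadingCoeff_mul, Polynomial.leadingCoeff_mul,
      Polynomial.leadingCoeff_mul, (RatFunc.monic_denom g).leadingCoeff,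
      (RatFunc.monic_denom h).leadingCoeff, (RatFunc.monic_denom (g * h)).leadingCoeff, mul_one,
      mul_one, mul_one] at h1
    exact h1
  · intro a
    rw [RatFunc.intDegree_C, RatFunc.num_C, Polynomial.leadingCoeff_C]
    exact ⟨rfl, rfl⟩
  · intro d Dc hDc g hg
    have h1 := D_quot Dc (den_ne g) (RatFunc.num_div_denom g).symm
    rw [hg, zero_mul, Dc_poly hDc, Dc_poly hDc, ← map_mul, ← map_mul] at h1
    have h2 : cd d g.num * g.denom = g.num * cd d g.denom := am_inj (sub_eq_zero.1 h1.symm)
    have h3 : g.denom ∣ cd d g.denom := by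
      refine (RatFunc.isCoprime_num_denom g).symm.dvd_of_dvd_mul_left ?_
      rw [← h2]
      exact dvd_mul_left _ _
    have h4 : cd d g.denom = 0 := by
      refine Polynomial.eq_zero_of_dvd_of_degree_lt h3 ?_
      rw [Polynomial.degree_eq_natDegree (RatFunc.denom_ne_zero g)]
      rw [Polynomial.degree_lt_iff_coeff_zero]
      intro n hn
      rw [cd_coeff]
      rcases hn.lt_or_eq with hn | hn
      · rw [Polynomial.coeff_eq_zero_of_natDegree_lt hn, map_zero]
      · rw [← hn]
        have : g.denom.coeff g.denom.natDegree = 1 := (RatFunc.monic_denom g).leadingCoeff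
        rw [this, Derivation.map_one_eq_zero]
    rw [h4, mul_zero] at h2
    have h5 : cd d g.num = 0 := (mul_eq_zero.1 h2).resolve_right (RatFunc.denom_ne_zero g)
    rw [Polynomial.leadingCoeff, ← cd_coeff, h5, Polynomial.coeff_zero]
  · intro a b
    have h1 : (RatFunc.X ^ 3 + RatFunc.C a * RatFunc.X + RatFunc.C b : RatFunc L) =
        algebraMap L[X] (RatFunc L) (X ^ 3 + C a * X + C b) := by
      rw [map_add, map_add, map_mul, map_pow, RatFunc.algebraMap_C, RatFunc.algebraMap_C,
        RatFunc.algebraMap_X]
    have h2 : (X ^ 3 + C a * X + C b : L[X]).natDegree = 3 := by compute_degree!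
    have h3 : (X ^ 3 + C a * X + C b : L[X]).Monic := by monicity!
    rw [h1, RatFunc.intDegree_polynomial, RatFunc.num_algebraMap, h2, h3.leadingCoeff]
    refine ⟨?_, rfl, rfl⟩
    rw [Ne, map_eq_zero_iff _ (RatFunc.algebraMap_injective L)]
    exact h3.ne_zero
  · intro d Dc Dt hDc hDt m A hm hA hdm hdA hrel
    have c1 := D_quot Dc (den_ne m) (RatFunc.num_div_denom m).symm
    have c2 := D_quot Dt (den_ne m) (RatFunc.num_div_denom m).symm
    have c3 := D_quot Dc (den_ne A) (RatFunc.num_div_denom A).symm
    have c4 := D_quot Dt (den_ne A) (RatFunc.num_div_denom A).symm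
    rw [Dc_poly hDc, Dc_poly hDc] at c1 c3
    rw [Dt_poly hDt, Dt_poly hDt] at c2 c4
    have e1 : (cd d m.num * m.denom - m.num * cd d m.denom) *
        (derivative A.num * A.denom - A.num * derivative A.denom) =
        (derivative m.num * m.denom - m.num * derivative m.denom) *
        (cd d A.num * A.denom - A.num * cd d A.denom) := by
      apply am_inj
      simp only [map_mul, map_sub]
      rw [← c1, ← c2, ← c3, ← c4]
      linear_combination (algebraMap L[X] (RatFunc L) m.denom) ^ 2 *
        (algebraMap L[X] (RatFunc L) A.denom) ^ 2 * hrel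
    have e2 : (cd d m.num * m.denom - m.num * cd d m.denom) *
        ((X * derivative A.num) * A.denom - A.num * (X * derivative A.denom)) =
        ((X * derivative m.num) * m.denom - m.num * (X * derivative m.denom)) *
        (cd d A.num * A.denom - A.num * cd d A.denom) := by
      linear_combination X * e1
    have hq : m.num.natDegree = m.denom.natDegree := by
      rw [RatFunc.intDegree] at hdm
      omega
    have hrs : A.num.natDegree ≠ A.denom.natDegree := by
      rw [RatFunc.intDegree] at hdA
      omega
    obtain ⟨n1, t1⟩ := top_coeff (cd_natDegree d m.num) (le_refl m.denom.natDegree)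
      (le_refl m.num.natDegree) (cd_natDegree d m.denom)
    obtain ⟨n2, t2⟩ := top_coeff (X_der_natDegree A.num) (le_refl A.denom.natDegree)
      (le_refl A.num.natDegree) (X_der_natDegree A.denom)
    obtain ⟨n3, t3⟩ := top_coeff (X_der_natDegree m.num) (le_refl m.denom.natDegree)
      (le_refl m.num.natDegree) (X_der_natDegree m.denom)
    obtain ⟨n4, t4⟩ := top_coeff (cd_natDegree d A.num) (le_refl A.denom.natDegree)
      (le_refl A.num.natDegree) (cd_natDegree d A.denom)
    have e3 := congrArg (fun p : L[X] => p.coeff ((m.num.natDegree + m.denom.natDegree) +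
      (A.num.natDegree + A.denom.natDegree))) e2
    rw [Polynomial.coeff_mul_add_eq_of_natDegree_le n1 n2, Polynomial.coeff_mul_add_eq_of_natDegree_le n3 n4,
      t1, t2, t3, t4, cd_coeff, cd_coeff, X_der_coeff, X_der_coeff, X_der_coeff, X_der_coeff] at e3
    have m1 : m.denom.coeff m.denom.natDegree = 1 := (RatFunc.monic_denom m).leadingCoeff
    have m2 : A.denom.coeff A.denom.natDegree = 1 := (RatFunc.monic_denom A).leadingCoeff
    rw [m1, m2, Derivation.map_one_eq_zero, hq] at e3
    have e4 : d (m.num.coeff m.denom.natDegree) *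
        (((A.num.natDegree : L) - A.denom.natDegree) * A.num.coeff A.num.natDegree) = 0 := by
      linear_combination e3
    have hα : A.num.coeff A.num.natDegree ≠ 0 := by
      have : A.num.leadingCoeff ≠ 0 := by
        rw [Ne, Polynomial.leadingCoeff_eq_zero]
        exact RatFunc.num_ne_zero hA
      exact this
    have hn : ((A.num.natDegree : L) - A.denom.natDegree) ≠ 0 := by
      rw [sub_ne_zero]
      exact_mod_cast hrs
    have e5 := (mul_eq_zero.1 e4).resolve_right (mul_ne_zero hn hα)
    rw [Polynomial.leadingCoeff, hq]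
    exact e5

end TOP

end Pool.Agent.Helper80.RK
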